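import Pool.Agent.H17.AH.TargetsC
import Pool.Agent.H15.BO.FNX

/-!
# Board ahy_modules, row TRIH: the triangular case with a form `f`
-/

set_option autoImplicit false

namespace Pool.Agent.H91.AH

open MvPolynomial SC Pool.Agent.H27.LV Pool.Agent.H17.VG Pool.Agent.H17.BO Pool.Agent.H17.AH

section

variable {L : Type} [Field L] {n d : ℕ}

private theorem fnl_add' (y : Mon (n + 1) d → L) (A B : MvPolynomial (Fin (n + 1)) L) :
    fnl y (A + B) = fnl y A + fnl y B := by
  unfold fnl
  rw [← Finset.sum_add_distrib]
  exact Finset.sum_congr rfl fun M _ => by rw [coeff_add, mul_add]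

private theorem fnl_C_mul' (y : Mon (n + 1) d → L) (c : L) (A : MvPolynomial (Fin (n + 1)) L) :
    fnl y (C c * A) = c * fnl y A := by
  unfold fnl
  rw [Finset.mul_sum]
  exact Finset.sum_congr rfl fun M _ => by rw [coeff_C_mul]; ring

private theorem fnl_sum' {ι : Type} (s : Finset ι) (y : Mon (n + 1) d → L)
    (A : ι → MvPolynomial (Fin (n + 1)) L) : fnl y (∑ i ∈ s, A i) = ∑ i ∈ s, fnl y (A i) := by
  classical
  induction s using Finset.induction_on with
  | empty => simp [fnl]
  | insert a s ha ih => rw [Finset.sum_insert ha, Finset.sum_insert ha, fnl_add', ih]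

/-- the functional `y - c (evaluation at z)` -/
private theorem fnl_sub_eval (y : Mon (n + 1) d → L) (c : L) (z : Fin (n + 1) → L)
    (G : MvPolynomial (Fin (n + 1)) L) (hG : G.IsHomogeneous d) :
    fnl (fun M => y M - c * eval z (mono L M.1)) G = fnl y G - c * eval z G := by
  have h1 : eval z G = ∑ M : Mon (n + 1) d, eval z (mono L M.1) * coeff (fs M.1) G := by
    conv_lhs => rw [← frm_coeff hG]
    unfold frm
    rw [map_sum]
    refine Finset.sum_congr rfl fun M _ => ?_
    rw [map_mul, eval_C, mul_comm]
  rw [h1]
  unfold fnl
  rw [Finset.mul_sum, ← Finset.sum_sub_distrib]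
  exact Finset.sum_congr rfl fun M _ => by ring

end

/-- the vectors orthogonal to two independent vectors of `L ^ 3` are multiples of one -/
private theorem ker_one {L : Type} [Field L] (m0 m1 x : Fin 3 → L)
    (hind : LinearIndependent L ![m0, m1]) (hx : x ≠ 0) (hm0 : ∑ t, m0 t * x t = 0)
    (hm1 : ∑ t, m1 t * x t = 0) (v : Fin 3 → L) (h0 : ∑ t, m0 t * v t = 0)
    (h1 : ∑ t, m1 t * v t = 0) : ∃ α : L, ∀ t, v t = α * x t := by
  classical
  set A : Matrix (Fin 2) (Fin 3) L := Matrix.of ![m0, m1] with hA
  have hrk : A.rank = 2 := by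
    have h := LinearIndependent.rank_matrix (M := A) hind
    rw [h, Fintype.card_fin]
  have hker : Module.finrank L (LinearMap.ker A.mulVecLin) = 1 := by
    have h := LinearMap.finrank_range_add_finrank_ker A.mulVecLin
    rw [Module.finrank_fin_fun] at h
    have h2 : Module.finrank L (LinearMap.range A.mulVecLin) = 2 := hrk
    omega
  have hmem : ∀ u : Fin 3 → L, ∑ t, m0 t * u t = 0 → ∑ t, m1 t * u t = 0 →
      u ∈ LinearMap.ker A.mulVecLin := by
    intro u hu0 hu1
    rw [LinearMap.mem_ker, Matrix.mulVecLin_apply]
    funext i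
    fin_cases i
    · exact hu0
    · exact hu1
  have hx' : (⟨x, hmem x hm0 hm1⟩ : LinearMap.ker A.mulVecLin) ≠ 0 := by
    intro h
    exact hx (congrArg Subtype.val h)
  obtain ⟨α, hα⟩ := (finrank_eq_one_iff_of_nonzero' _ hx').1 hker ⟨v, hmem v h0 h1⟩
  refine ⟨α, fun t => ?_⟩
  have := congrFun (congrArg Subtype.val hα) t
  simpa using this.symm

theorem pf_TRIH (hANN : T_ANN) (hEVX : T_EVX) (hOLN : T_OLN) : T_TRIH := by
  classical
  intro k L _ _ _ e m g f hg hf hz x y m0 m1 hx hfx hyf hind hm0 hm1 hgr h0 h1 hex
  have hm0ne : m0 ≠ 0 := by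
    have := hind.ne_zero 0
    simpa using this
  choose r hr using h1
  -- the functional over `k`
  set lam : Mon 3 (e + 1) → k := fun M => r (Pi.single M 1) with hlam
  have hfrm1 : ∀ M : Mon 3 (e + 1), frm (Pi.single M 1 : Mon 3 (e + 1) → k) = mono k M.1 := by
    intro M
    unfold frm
    rw [Finset.sum_eq_single M]
    · simp
    · intro N _ hN
      rw [Pi.single_eq_of_ne hN]
      simp
    · intro h
      exact absurd (Finset.mem_univ M) h
  have hlin : ∀ Q : Mon 3 (e + 1) → k,
      fnl y (lin m1 * up L (frm Q)) = algebraMap k L (fnl lam (frm Q)) := by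
    intro Q
    have e1 : lin m1 * up L (frm Q) =
        ∑ M : Mon 3 (e + 1), C (algebraMap k L (Q M)) *
          (lin m1 * up L (frm (Pi.single M 1 : Mon 3 (e + 1) → k))) := by
      have e2 : up L (frm Q) = ∑ M : Mon 3 (e + 1), C (algebraMap k L (Q M)) *
          up L (frm (Pi.single M 1 : Mon 3 (e + 1) → k)) := by
        simp only [hfrm1]
        unfold up frm
        rw [map_sum]
        refine Finset.sum_congr rfl fun M _ => ?_
        rw [map_mul, map_C]
      rw [e2, Finset.mul_sum]
      exact Finset.sum_congr rfl fun M _ => by ring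
    rw [e1, fnl_sum', Pool.Agent.H15.BO.fnl_frm, map_sum]
    refine Finset.sum_congr rfl fun M _ => ?_
    rw [fnl_C_mul', hr, map_mul, hlam, mul_comm]
  have hlin' : ∀ G : MvPolynomial (Fin 3) k, G.IsHomogeneous (e + 1) →
      fnl y (lin m1 * up L G) = algebraMap k L (fnl lam G) := by
    intro G hG
    have := hlin (fun f : Mon 3 (e + 1) => coeff (fs f.1) G)
    rwa [frm_coeff hG] at this
  have h0' : ∀ G : MvPolynomial (Fin 3) k, G.IsHomogeneous (e + 1) →
      fnl y (lin m0 * up L G) = 0 := by
    intro G hG
    have := h0 (fun f : Mon 3 (e + 1) => coeff (fs f.1) G)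
    rwa [frm_coeff hG] at this
  have hXR : ∀ (R : Mon 3 e → k) (t : Fin 3), (X t * frm R).IsHomogeneous (e + 1) := by
    intro R t
    have := (isHomogeneous_X k t).mul (frm_homog R)
    rwa [add_comm] at this
  have hann : ∀ R : Mon 3 e → k,
      ∑ t, m0 t * algebraMap k L (fnl lam (X t * frm R)) = 0 := by
    intro R
    have e1 : ∑ t, m0 t * algebraMap k L (fnl lam (X t * frm R)) =
        fnl y (∑ t, C (m0 t) * (lin m1 * up L (X t * frm R))) := by
      rw [fnl_sum']
      refine Finset.sum_congr rfl fun t _ => ?_
      rw [fnl_C_mul', hlin' _ (hXR R t)]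
    have e2 : (∑ t, C (m0 t) * (lin m1 * up L (X t * frm R)) : MvPolynomial (Fin 3) L) =
        ∑ t, C (m1 t) * (lin m0 * up L (X t * frm R)) := by
      have hu : ∀ t : Fin 3, up L (X t * frm R) = X t * up L (frm R) := by
        intro t
        unfold up
        rw [map_mul, map_X]
      simp only [hu]
      have key : ∀ (A : Fin 3 → L) (D u : MvPolynomial (Fin 3) L),
          ∑ t, C (A t) * (D * (X t * u)) = D * (lin A * u) := by
        intro A D u
        unfold lin
        rw [Finset.sum_mul, Finset.mul_sum]
        refine Finset.sum_congr rfl fun t _ => ?_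
        ring
      rw [key, key]
      ring
    rw [e1, e2, fnl_sum']
    refine Finset.sum_eq_zero fun t _ => ?_
    rw [fnl_C_mul', h0' _ (hXR R t), mul_zero]
  rcases hANN k L e lam m0 hm0ne hann with h | ⟨η, s, hs⟩ | ⟨z, c, hz0, hc0, hzm, hzc⟩
  · exfalso
    obtain ⟨Q, hQ⟩ := hex
    apply hQ
    rw [hlin, Pool.Agent.H15.BO.fnl_frm]
    simp [h]
  · have hη : η ≠ 0 := by
      rintro rfl
      apply hm0ne
      funext t
      rw [hs t]
      simp
    have hs0 : s ≠ 0 := by
      rintro rfl
      apply hm0ne
      funext t
      rw [hs t]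
      simp
    refine hOLN k L x η hη ?_
    have e1 : s * ∑ t, algebraMap k L (η t) * x t = 0 := by
      rw [Finset.mul_sum, ← hm0]
      refine Finset.sum_congr rfl fun t _ => ?_
      rw [hs t]
      ring
    exact (mul_eq_zero.1 e1).resolve_left hs0
  · by_cases hfz : eval z f = 0
    · exfalso
      obtain ⟨a, ha⟩ := hz z hz0 hfz
      apply ha
      have e1 := hgr m1 hm1 a
      rw [hlin' _ (hg a)] at e1
      have e2 : fnl lam (g a) = c * eval z (g a) := by
        have := hzc (fun f : Mon 3 (e + 1) => coeff (fs f.1) (g a))
        rwa [frm_coeff (hg a)] at this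
      rw [e2, map_eq_zero] at e1
      exact (mul_eq_zero.1 e1).resolve_left hc0
    · set zb : Fin 3 → L := fun t => algebraMap k L (z t) with hzb
      have hevz : ∀ G : MvPolynomial (Fin 3) k, eval zb (up L G) = algebraMap k L (eval z G) := by
        intro G
        unfold up
        rw [eval_map]
        rw [hzb]
        exact (eval₂_comp_left (algebraMap k L) (RingHom.id k) z G).symm.trans
          (by rw [← MvPolynomial.eval₂_id])
      have hcz : ∀ G : MvPolynomial (Fin 3) k, G.IsHomogeneous (e + 1) →
          fnl lam G = c * eval z G := by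
        intro G hG
        have := hzc (fun f : Mon 3 (e + 1) => coeff (fs f.1) G)
        rwa [frm_coeff hG] at this
      by_cases hμ : ∑ t, m1 t * zb t = 0
      · obtain ⟨α, hα⟩ := ker_one m0 m1 x hind hx hm0 hm1 zb hzm hμ
        have hα0 : α ≠ 0 := by
          rintro rfl
          apply hz0
          funext t
          have := hα t
          rw [zero_mul, hzb] at this
          simpa using this
        refine ⟨z, 0, α⁻¹, 0, fun t => ?_⟩
        have := hα t
        rw [hzb] at this
        simp only at this
        rw [this, zero_mul, add_zero, ← mul_assoc, inv_mul_cancel₀ hα0, one_mul]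
      · exfalso
        set μ : L := ∑ t, m1 t * zb t with hμdef
        set c' : L := algebraMap k L c / μ with hc'
        have hc'0 : c' ≠ 0 := by
          rw [hc']
          exact div_ne_zero (by rwa [Ne, map_eq_zero]) hμ
        have hlinsum : ∀ (ζ : Fin 3 → L) (P : MvPolynomial (Fin 3) L),
            fnl y (lin ζ * P) = ∑ t, ζ t * fnl y (X t * P) := by
          intro ζ P
          have e1 : lin ζ * P = ∑ t, C (ζ t) * (X t * P) := by
            unfold lin
            rw [Finset.sum_mul]
            exact Finset.sum_congr rfl fun t _ => by ring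
          rw [e1, fnl_sum']
          exact Finset.sum_congr rfl fun t _ => fnl_C_mul' _ _ _
        have hw : ∀ G : MvPolynomial (Fin 3) k, G.IsHomogeneous (e + 1) → ∃ α : L, ∀ t,
            fnl y (X t * up L G) - c' * algebraMap k L (eval z G) * zb t = α * x t := by
          intro G hG
          refine ker_one m0 m1 x hind hx hm0 hm1
            (fun t => fnl y (X t * up L G) - c' * algebraMap k L (eval z G) * zb t) ?_ ?_
          · have e1 := h0' G hG
            rw [hlinsum] at e1
            have e2 : ∑ t, m0 t * (fnl y (X t * up L G) - c' * algebraMap k L (eval z G) * zb t) =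
                ∑ t, m0 t * fnl y (X t * up L G) -
                  c' * algebraMap k L (eval z G) * ∑ t, m0 t * zb t := by
              rw [Finset.mul_sum, ← Finset.sum_sub_distrib]
              exact Finset.sum_congr rfl fun t _ => by ring
            rw [e2, e1, hzm]
            ring
          · have e1 := hlin' G hG
            rw [hlinsum, hcz G hG] at e1
            have e2 : ∑ t, m1 t * (fnl y (X t * up L G) - c' * algebraMap k L (eval z G) * zb t) =
                ∑ t, m1 t * fnl y (X t * up L G) -
                  c' * algebraMap k L (eval z G) * ∑ t, m1 t * zb t := by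
              rw [Finset.mul_sum, ← Finset.sum_sub_distrib]
              exact Finset.sum_congr rfl fun t _ => by ring
            rw [e2, e1, ← hμdef, hc', map_mul]
            field_simp
            ring
        set y2 : Mon 3 (e + 2) → L := fun M => y M - c' * eval zb (mono L M.1) with hy2
        have hlh : ∀ (ζ : Fin 3 → L) (P : MvPolynomial (Fin 3) L), P.IsHomogeneous (e + 1) →
            (lin ζ * P).IsHomogeneous (e + 2) := by
          intro ζ P hP
          have e1 : (lin ζ).IsHomogeneous 1 := by
            unfold lin
            refine IsHomogeneous.sum _ _ _ fun j _ => ?_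
            have := (isHomogeneous_C (Fin 3) (ζ j)).mul (isHomogeneous_X L j)
            rwa [zero_add] at this
          have := e1.mul hP
          have e3 : 1 + (e + 1) = e + 2 := by omega
          rwa [e3] at this
        have hup : ∀ G : MvPolynomial (Fin 3) k, G.IsHomogeneous (e + 1) →
            (up L G).IsHomogeneous (e + 1) := fun G hG => hG.map _
        have hy2k : ∀ ζ : Fin 3 → L, ∑ t, ζ t * x t = 0 →
            ∀ G : MvPolynomial (Fin 3) k, G.IsHomogeneous (e + 1) →
            fnl y2 (lin ζ * up L G) = 0 := by
          intro ζ hζ G hG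
          obtain ⟨α, hα⟩ := hw G hG
          rw [hy2, fnl_sub_eval y c' zb _ (hlh ζ _ (hup G hG)), hlinsum, map_mul, hevz]
          have e1 : eval zb (lin ζ) = ∑ t, ζ t * zb t := by
            unfold lin
            rw [map_sum]
            refine Finset.sum_congr rfl fun t _ => ?_
            rw [map_mul, eval_C, eval_X]
          rw [e1]
          have e2 : ∀ t, fnl y (X t * up L G) =
              c' * algebraMap k L (eval z G) * zb t + α * x t := fun t => by
            rw [← hα t]
            ring
          simp only [e2]
          have e3 : ∑ t, ζ t * (c' * algebraMap k L (eval z G) * zb t + α * x t) =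
              c' * ((∑ t, ζ t * zb t) * algebraMap k L (eval z G)) + α * ∑ t, ζ t * x t := by
            rw [Finset.sum_mul, Finset.mul_sum, Finset.mul_sum, ← Finset.sum_add_distrib]
            exact Finset.sum_congr rfl fun t _ => by ring
          rw [e3, hζ]
          ring
        obtain ⟨a, ha⟩ := hEVX L 2 (e + 1) x hx y2 (by
          intro ζ hζ R hR
          have e1 : lin ζ * R = ∑ M : Mon 3 (e + 1), C (coeff (fs M.1) R) *
              (lin ζ * up L (mono k M.1)) := by
            conv_lhs => rw [← frm_coeff hR]
            unfold frm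
            rw [Finset.mul_sum]
            refine Finset.sum_congr rfl fun M _ => ?_
            have e2 : up L (mono k M.1) = mono L M.1 := by
              unfold up mono
              rw [map_monomial, map_one]
            rw [e2]
            ring
          rw [e1, fnl_sum']
          refine Finset.sum_eq_zero fun M _ => ?_
          rw [fnl_C_mul', hy2k ζ hζ _ (by
            have := frm_homog (Pi.single M 1 : Mon 3 (e + 1) → k)
            rwa [hfrm1] at this), mul_zero])
        have hfh : (up L f).IsHomogeneous (e + 1 + 1) := hf.map _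
        have h2 := ha (up L f) hfh
        rw [hfx, mul_zero, hy2, fnl_sub_eval y c' zb _ hfh, hyf, hevz, zero_sub, neg_eq_zero] at h2
        rcases mul_eq_zero.1 h2 with h3 | h3
        · exact hc'0 h3
        · exact hfz ((map_eq_zero _).1 h3)

end Pool.Agent.H91.AH
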