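import Pool.Agent.H17.AH.TargetsX
import Pool.Agent.H13.BO.XMC
import Pool.Agent.H49.CI.XMT

/-!
# Board ahy_modules, row XMCH: no conics on the hypersurface through general points
-/

set_option autoImplicit false

namespace Pool.Agent.H91.AH

open MvPolynomial SC Pool.Agent.H27.LV Pool.Agent.H17.VG Pool.Agent.H17.BO Pool.Agent.H17.AH

section
variable {L : Type} [Field L] {n : ℕ}

/-- derivative with respect to the parameter of the conic -/
theorem res2_deriv (x b c : Fin (n + 1) → L) (G : MvPolynomial (Fin (n + 1)) L) :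
    Polynomial.derivative (res2 x b c G) =
      ∑ l, (Polynomial.C (b l) + 2 * Polynomial.C (c l) * Polynomial.X) *
        res2 x b c (pderiv l G) := by
  classical
  induction G using MvPolynomial.induction_on with
  | C a =>
    have h : res2 x b c (C a) = Polynomial.C a := by
      unfold res2
      rw [aeval_C]
      rfl
    rw [h, Polynomial.derivative_C]
    symm
    refine Finset.sum_eq_zero fun l _ => ?_
    rw [pderiv_C]
    unfold res2
    rw [map_zero, mul_zero]
  | add p q hp hq =>
    have h : ∀ P Q : MvPolynomial (Fin (n + 1)) L,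
        res2 x b c (P + Q) = res2 x b c P + res2 x b c Q := by
      intro P Q
      unfold res2
      exact map_add _ _ _
    rw [h, map_add, hp, hq, ← Finset.sum_add_distrib]
    refine Finset.sum_congr rfl fun l _ => ?_
    rw [map_add, h]
    ring
  | mul_X p i hp =>
    have h : ∀ P Q : MvPolynomial (Fin (n + 1)) L,
        res2 x b c (P * Q) = res2 x b c P * res2 x b c Q := by
      intro P Q
      unfold res2
      exact map_mul _ _ _
    have h2 : ∀ P Q : MvPolynomial (Fin (n + 1)) L,
        res2 x b c (P + Q) = res2 x b c P + res2 x b c Q := by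
      intro P Q
      unfold res2
      exact map_add _ _ _
    have hX : res2 x b c (X i) = Polynomial.C (x i) + Polynomial.C (b i) * Polynomial.X +
        Polynomial.C (c i) * Polynomial.X ^ 2 := by
      unfold res2
      rw [aeval_X]
    have hone : res2 x b c 1 = 1 := by
      unfold res2
      exact map_one _
    have hzero : res2 x b c 0 = 0 := by
      unfold res2
      exact map_zero _
    rw [h, Polynomial.derivative_mul, hp, hX]
    have h3 : ∀ l, (Polynomial.C (b l) + 2 * Polynomial.C (c l) * Polynomial.X) *
        res2 x b c (pderiv l (p * X i)) =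
        (Polynomial.C (b l) + 2 * Polynomial.C (c l) * Polynomial.X) *
          res2 x b c (pderiv l p) * (Polynomial.C (x i) + Polynomial.C (b i) * Polynomial.X +
          Polynomial.C (c i) * Polynomial.X ^ 2) +
        (if l = i then res2 x b c p * (Polynomial.C (b i) + 2 * Polynomial.C (c i) *
          Polynomial.X) else 0) := by
      intro l
      rw [pderiv_mul, h2, h, h, hX]
      by_cases hl : l = i
      · subst hl
        rw [pderiv_X_self, hone, if_pos rfl]
        ring
      · rw [pderiv_X_of_ne (fun h => hl h.symm), hzero, if_neg hl]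
        ring
    rw [Finset.sum_congr rfl fun l _ => h3 l, Finset.sum_add_distrib, ← Finset.sum_mul,
      Finset.sum_ite_eq' Finset.univ i, if_pos (Finset.mem_univ i)]
    have h4 : Polynomial.derivative (Polynomial.C (x i) + Polynomial.C (b i) * Polynomial.X +
        Polynomial.C (c i) * Polynomial.X ^ 2 : Polynomial L) =
        Polynomial.C (b i) + 2 * Polynomial.C (c i) * Polynomial.X := by
      rw [map_add, map_add, Polynomial.derivative_C, Polynomial.derivative_C_mul,
        Polynomial.derivative_C_mul, Polynomial.derivative_X, Polynomial.derivative_X_pow]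
      have h5 : (Polynomial.C ((2 : ℕ) : L) : Polynomial L) = 2 := by
        rw [Polynomial.C_eq_natCast]
        norm_num
      rw [h5]
      ring
    rw [h4]

/-- the vectors of the dimension count -/
noncomputable def vH (B : Finset (Fin n)) (x b c : Fin (n + 1) → L)
    (F : MvPolynomial (Fin (n + 1)) L) :
    ({l : Fin n // ¬ l ∈ B} ⊕ (Fin (n + 1) ⊕ Fin (n + 1))) → Polynomial L
  | Sum.inl l => res2 x b c (pderiv l.1.succ F)
  | Sum.inr (Sum.inl l) => Polynomial.X * res2 x b c (pderiv l F)
  | Sum.inr (Sum.inr l) => Polynomial.X ^ 2 * res2 x b c (pderiv l F)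

theorem sum_vH (B : Finset (Fin n)) (x b c : Fin (n + 1) → L)
    (F : MvPolynomial (Fin (n + 1)) L) (u v w : Fin (n + 1) → L) (hu0 : u 0 = 0)
    (hu : ∀ l ∈ B, u l.succ = 0) :
    (∑ j, (Sum.elim (fun l : {l : Fin n // ¬ l ∈ B} => u l.1.succ)
      (Sum.elim v w)) j • vH B x b c F j) =
      res2 x b c (dir u F) + Polynomial.X * res2 x b c (dir v F) +
        Polynomial.X ^ 2 * res2 x b c (dir w F) := by
  classical
  rw [Fintype.sum_sum_type, Fintype.sum_sum_type]
  simp only [Sum.elim_inl, Sum.elim_inr, vH]
  rw [← add_assoc]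
  congr 1
  · congr 1
    · rw [Pool.Agent.H13.BO.res2_dir, Fin.sum_univ_succ, hu0, Polynomial.C_0, zero_mul, zero_add]
      have h1 : ∀ l : Fin n, Polynomial.C (u l.succ) * res2 x b c (pderiv l.succ F) =
          if ¬ l ∈ B then u l.succ • res2 x b c (pderiv l.succ F) else 0 := by
        intro l
        by_cases hl : l ∈ B
        · rw [if_neg (not_not.2 hl), hu l hl, Polynomial.C_0, zero_mul]
        · rw [if_pos hl, Polynomial.smul_eq_C_mul]
      rw [Finset.sum_congr rfl fun l _ => h1 l, ← Finset.sum_filter]
      exact (Finset.sum_subtype (Finset.univ.filter fun l => ¬ l ∈ B) (by simp)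
        (fun l => u l.succ • res2 x b c (pderiv l.succ F))).symm
    · rw [Pool.Agent.H13.BO.res2_dir, Finset.mul_sum]
      exact Finset.sum_congr rfl fun l _ => by rw [Polynomial.smul_eq_C_mul]; ring
  · rw [Pool.Agent.H13.BO.res2_dir, Finset.mul_sum]
    exact Finset.sum_congr rfl fun l _ => by rw [Polynomial.smul_eq_C_mul]; ring

end

theorem pf_XMCH (hRS2 : Pool.Agent.H17.BO.T_RS2) (hDR2 : Pool.Agent.H17.BO.T_DR2)
    (hXDD : Pool.Agent.H17.CI.T_XDD) : T_XMCH := by
  intro k L _ _ _ _ n d hd c hc x b c' B hx0 hind hB hlin heq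
  classical
  have : CharZero L := charZero_of_injective_algebraMap (algebraMap k L).injective
  set F : MvPolynomial (Fin (n + 1)) L := up L (frm c) with hF
  let v := vH B x b c' F
  have hspan : ∀ P : Polynomial L, P.natDegree ≤ 2 * d →
      P ∈ Submodule.span L (Set.range v) := by
    intro P hP
    obtain ⟨G, hG, hGP⟩ := hRS2 L n d x b c' hlin P hP
    obtain ⟨θ', hθc, hθx⟩ := hXDD k L _ _ c (fun b : B => x b.1.succ) hc hind
      (fun M : Mon (n + 1) d => coeff (fs M.1) G)
    let θ : Derivation ℚ L L := Pool.Agent.H49.CI.ratD θ'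
    have hθ : ∀ u, θ u = θ' u := fun u => rfl
    have hcD : cD θ F = G := Pool.Agent.H49.CI.cD_frm θ c G hG fun M => hθc M
    have h1 := hDR2 ℚ L n θ x b c' F
    rw [hcD, hGP, heq, Pool.Agent.H97.VG.pD_zero] at h1
    have h2 := sum_vH B x b c' F (fun i => θ (x i)) (fun i => θ (b i)) (fun i => θ (c' i))
      (by simp only [hx0]; rw [Derivation.map_one_eq_zero])
      (fun l hl => by
        have := hθx ⟨l, hl⟩
        simpa [hθ] using this)
    have h3 : P = - ∑ j, (Sum.elim (fun l : {l : Fin n // ¬ l ∈ B} => (fun i => θ (x i)) l.1.succ)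
      (Sum.elim (fun i => θ (b i)) (fun i => θ (c' i)))) j • vH B x b c' F j := by
      rw [h2]
      linear_combination -h1
    rw [h3]
    exact Submodule.neg_mem _ (Submodule.sum_mem _ fun j _ => Submodule.smul_mem _ _
      (Submodule.subset_span (Set.mem_range_self j)))
  -- the dimension of the span is at least `2 d + 1`
  have hfin : Module.Finite L (Submodule.span L (Set.range v)) :=
    Module.Finite.span_of_finite L (Set.finite_range v)
  have hdim : 2 * d + 1 ≤ Module.finrank L (Submodule.span L (Set.range v)) := by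
    have h1 : Polynomial.degreeLT L (2 * d + 1) ≤ Submodule.span L (Set.range v) := by
      intro P hP
      refine hspan P ?_
      rw [Polynomial.mem_degreeLT] at hP
      by_cases h0 : P = 0
      · rw [h0, Polynomial.natDegree_zero]
        exact Nat.zero_le _
      · have := (Polynomial.natDegree_lt_iff_degree_lt h0).2 hP
        omega
    have h2 := Submodule.finrank_mono h1
    have h3 : Module.finrank L (Polynomial.degreeLT L (2 * d + 1)) = 2 * d + 1 := by
      rw [(Polynomial.degreeLTEquiv L (2 * d + 1)).finrank_eq, Module.finrank_fin_fun]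
    rwa [h3] at h2
  -- the relation
  have hrel : ∑ j, (Sum.elim (fun l : {l : Fin n // ¬ l ∈ B} => (fun _ => (0 : L)) l.1.succ)
      (Sum.elim b (fun i => 2 * c' i))) j • vH B x b c' F j = 0 := by
    have h := sum_vH B x b c' F (fun _ => (0 : L)) b (fun i => 2 * c' i) rfl (fun _ _ => rfl)
    rw [h]
    have h0 : res2 x b c' (dir (fun _ => (0 : L)) F) = 0 := by
      rw [Pool.Agent.H13.BO.res2_dir]
      refine Finset.sum_eq_zero fun j _ => ?_
      rw [Polynomial.C_0, zero_mul]
    have h1 := res2_deriv x b c' F
    rw [heq, map_zero] at h1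
    rw [h0, zero_add, Pool.Agent.H13.BO.res2_dir, Pool.Agent.H13.BO.res2_dir, Finset.mul_sum,
      Finset.mul_sum, ← Finset.sum_add_distrib]
    have h2 : (Polynomial.X : Polynomial L) * ∑ l, (Polynomial.C (b l) +
        2 * Polynomial.C (c' l) * Polynomial.X) * res2 x b c' (pderiv l F) = 0 := by
      rw [← h1, mul_zero]
    rw [Finset.mul_sum] at h2
    refine Eq.trans (Finset.sum_congr rfl fun l _ => ?_) h2
    have h5 : (Polynomial.C (2 * c' l) : Polynomial L) = 2 * Polynomial.C (c' l) := by
      rw [Polynomial.C_mul]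
      congr 1
    rw [h5]
    ring
  -- rank and nullity
  let J := {l : Fin n // ¬ l ∈ B} ⊕ (Fin (n + 1) ⊕ Fin (n + 1))
  let Φ : (J → L) →ₗ[L] Polynomial L := Fintype.linearCombination L v
  have hrange : LinearMap.range Φ = Submodule.span L (Set.range v) :=
    Fintype.range_linearCombination L v
  have hrn := LinearMap.finrank_range_add_finrank_ker Φ
  rw [hrange, Module.finrank_fintype_fun_eq_card] at hrn
  have hcard : Fintype.card J = 1 + ((n + 1) + (n + 1)) := by
    show Fintype.card ({l : Fin n // ¬ l ∈ B} ⊕ (Fin (n + 1) ⊕ Fin (n + 1))) = _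
    rw [Fintype.card_sum, Fintype.card_sum, Fintype.card_subtype_compl, Fintype.card_fin,
      Fintype.card_fin]
    have h1 : Fintype.card {l : Fin n // l ∈ B} = B.card := Fintype.card_coe B
    rw [h1]
    omega
  have hker : Module.finrank L (LinearMap.ker Φ) = 0 := by omega
  have hb : b ≠ 0 := by
    have := hlin.ne_zero 1
    simpa using this
  apply hb
  have hk0 : LinearMap.ker Φ = ⊥ := Submodule.finrank_eq_zero.1 hker
  have hmem : (Sum.elim (fun l : {l : Fin n // ¬ l ∈ B} => (fun _ => (0 : L)) l.1.succ)
      (Sum.elim b (fun i => 2 * c' i)) : J → L) ∈ LinearMap.ker Φ :=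
    LinearMap.mem_ker.2 ((Fintype.linearCombination_apply L v _).trans hrel)
  rw [hk0, Submodule.mem_bot] at hmem
  funext j
  exact congrFun hmem (Sum.inr (Sum.inl j))

end Pool.Agent.H91.AH
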